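import Mathlib

/-!
# Project SS (MP_3cdc4e_an): statements of the parts

Aim: for every `n ≥ 2` there is a strictly singular operator `T` on the Schreier space `X[S_n]` with
`‖T - A B‖ ≥ 1` for all operators `B : X → c₀`, `A : c₀ → X`. The operator sends `e_{m_k}` to the
average `y_k` of the maximal `S_1`-set starting at `m_k` and the other unit vectors to `0`.
-/

set_option autoImplicit false

namespace Pool.Agent.X184.SS

open Finset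

/-- Schreier families; the index `j : ℕ` stands for the positive integer `j + 1`. -/
def Sch : ℕ → Set (Finset ℕ)
  | 0 => {F | F.card ≤ 1}
  | n + 1 => {F | ∃ (k : ℕ) (G : Fin k → Finset ℕ),
      (∀ i, (G i).Nonempty ∧ G i ∈ Sch n) ∧
      (∀ i j, i < j → ∀ a ∈ G i, ∀ b ∈ G j, a < b) ∧
      F = univ.biUnion G ∧ ∀ a ∈ F, k ≤ a + 1}

/-- the norm of the Schreier space on finitely supported sequences -/
noncomputable def schNorm (n : ℕ) (x : ℕ →₀ ℝ) : ℝ :=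
  ⨆ F : {F : Finset ℕ // F ∈ Sch n}, ∑ j ∈ F.1, |x j|

def m (k : ℕ) : ℕ := 2 ^ (4 ^ (k + 1))

/-- the maximal `S_1`-set with least element `m k` (`m k + 1` elements) -/
def A (k : ℕ) : Finset ℕ := Finset.Ico (m k) (2 * m k + 1)

/-- the operator on sequences -/
noncomputable def Tv (x : ℕ → ℝ) (j : ℕ) : ℝ :=
  ∑ k ∈ range (j + 1), if j ∈ A k then x (m k) / (m k + 1) else 0

/-- UNI. Unions of `k` successive members of `S_n` (possibly empty) starting at or after `k` are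
in `S_{n+1}`: drop the empty ones (reindex with `Finset.orderEmbOfFin`). -/
def S_UNI : Prop := ∀ (n k : ℕ) (G : Fin k → Finset ℕ), (∀ i, G i ∈ Sch n) →
  (∀ i j, i < j → ∀ a ∈ G i, ∀ b ∈ G j, a < b) → (∀ i, ∀ a ∈ G i, k ≤ a + 1) →
  univ.biUnion G ∈ Sch (n + 1)

/-- HER. Hereditary (induction, with UNI for `G ∩ F_i`). -/
def S_HER : Prop := S_UNI → ∀ (n : ℕ) (F G : Finset ℕ), F ∈ Sch n → G ⊆ F → G ∈ Sch n

/-- SPR. Spreading (induction on `n`: images of the pieces). -/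
def S_SPR : Prop := ∀ (n : ℕ) (F : Finset ℕ) (f : ℕ → ℕ), F ∈ Sch n →
  StrictMonoOn f (F : Set ℕ) → (∀ a ∈ F, a ≤ f a) → F.image f ∈ Sch n

/-- DEC. `S_{n+1} = S_n[S_1]`: a member of `S_{n+1}` is a union of `S_1`-sets `H h` with least
elements `h` forming a member `R` of `S_n`. Induction on `n` (n = 0: `F ∈ S_1`, so `F = ∅` or
`R = {min F}`, `card F ≤ min F + 1`; step: unions of the `R_i`, `min R_i = min F_i`, all ordered). -/
def S_DEC : Prop := ∀ (n : ℕ) (F : Finset ℕ), F ∈ Sch (n + 1) →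
  ∃ R ∈ Sch n, ∃ H : ℕ → Finset ℕ, F = R.biUnion H ∧
    ∀ h ∈ R, h ∈ H h ∧ (∀ j ∈ H h, h ≤ j) ∧ (H h).card ≤ h + 1

/-- BD. Boundedness of the operator: `‖T x‖_{n+1} ≤ 3 ‖x‖_n`.
Proof. Replace `F` by its intersection with `⋃ A k` (HER; the other terms of the sum are `0`). Write
`F = ⋃_{h ∈ R} H h` (DEC); every `h ∈ R` lies in `F`, so in exactly one `A k`. Let
`K = {k | A k ∩ R ≠ ∅}`. If `k ∈ K`, the terms `j ∈ F ∩ A k` sum up to at most `|x (m k)|`. If `k ∉ K`,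
`F ∩ A k ⊆ ⋃ {H h | h ∈ R, h < m k}`, and those `h` are in `A k'`, `k' < k`, so `h ≤ 2 m (k-1)`, and
`|F ∩ A k| ≤ ∑_{h ≤ 2 m (k-1)} (h + 1) ≤ (2 m (k-1) + 1)^2`; since `m k = m (k-1)^4`, the sum over `k` of
`|F ∩ A k| / (m k + 1)` is `≤ 1` (for `k ∉ K`, `k ≥ 1`; F ∩ A 0 nonempty implies 0 ∈ K), and `|x (m k)| ≤ C` by
singletons. Finally `∑_{k ∈ K} |x (m k)| ≤ C + C`: the least `k` gives at most `C`, and for the others
the set `{m k | k ∈ K, k ≠ min K}` is in `S_n` by SPR: if `k⁻` is the predecessor of `k` in `K` and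
`h_{k⁻} ∈ R ∩ A k⁻` then `h_{k⁻} ≤ 2 m k⁻ < m k`, and `{h_{k⁻}} ⊆ R` is in `S_n` (HER). -/
def S_BD : Prop := S_UNI → (∀ (n : ℕ) (F G : Finset ℕ), F ∈ Sch n → G ⊆ F → G ∈ Sch n) → S_SPR →
  S_DEC → ∀ (n : ℕ) (x : ℕ → ℝ) (C : ℝ), (∀ G ∈ Sch n, ∑ j ∈ G, |x j| ≤ C) →
  ∀ F ∈ Sch (n + 1), ∑ j ∈ F, |Tv x j| ≤ 3 * C

/-- STEP for SS. In an infinite-dimensional space `Z` of sequences with small tails on which the norm
of order `n + 1` is at most `C` times the norm of order `n`: if for all `ε > 0` and `N` there is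
`z ∈ Z` vanishing before `N` with norm `1` of order `n + 1` (`≤ 1` for all `F`, and `≥ 1/2` for
some `F`) and norm `≤ ε` of order `i` (`i < n + 1`), then the same holds for order `i + 1` instead of
`i`. Proof. Let `p ≥ 1` be large, `z_1, …, z_p` chosen successively, all vanishing before `p` and `N`,
with `z_{j+1}` vanishing before `N_{j+1}`, where the tail of `z_1 + … + z_j` (and of each) beyond `N_{j+1}`
is `≤ 1/p^2` for all `F ∈ S_{n+1}`, and of norm `≤ 1 / (p (N_{j+1} + 1))` of order `i`. Let `w = ∑ z_j`.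
(1) Order `i + 1`: `F = F_1 ∪ … ∪ F_k`, `k ≤ min F + 1`, `N_j ≤ min F < N_{j+1}`: the earlier `z` give
at most `p * (1/p^2)`, `z_j` gives at most `1`, the later ones at most `k / (p (N_{j+1}+1)) ≤ 1/p` each.
So all sums are `≤ 3`. (2) Order `n + 1`: each `z_j` has a sum over some `F_j ∈ S_n` that is at least
`1/(3 C)`, `F_j ⊆ [N_j, N_{j+1})` up to a loss `1/p^2`, and `F_1 ∪ … ∪ F_p ∈ S_{n+1}` (as all is
beyond `p`): the sum of `|w|` is at least `p (1/(3 C) - 1/p^2) - (interactions ≤ 1)`. Normalise `w`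
(divide by the supremum, finite by the tails, of the sums over `F ∈ S_{n+1}`). -/
def Good (Z : Submodule ℝ (ℕ → ℝ)) (n i : ℕ) : Prop := ∀ ε : ℝ, 0 < ε → ∀ N : ℕ, ∃ z ∈ Z,
  (∀ j < N, z j = 0) ∧ (∀ F ∈ Sch (n + 1), ∑ j ∈ F, |z j| ≤ 1) ∧
  (∃ F ∈ Sch (n + 1), 1 / 2 ≤ ∑ j ∈ F, |z j|) ∧ ∀ F ∈ Sch i, ∑ j ∈ F, |z j| ≤ ε

def Tails (Z : Submodule ℝ (ℕ → ℝ)) (n : ℕ) : Prop := ∀ z ∈ Z, ∀ η : ℝ, 0 < η → ∃ N : ℕ,
  ∀ F ∈ Sch (n + 1), (∀ a ∈ F, N ≤ a) → ∑ j ∈ F, |z j| ≤ η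

def Dom (Z : Submodule ℝ (ℕ → ℝ)) (n : ℕ) (C : ℝ) : Prop := ∀ z ∈ Z, ∀ B : ℝ,
  (∀ G ∈ Sch n, ∑ j ∈ G, |z j| ≤ B) → ∀ F ∈ Sch (n + 1), ∑ j ∈ F, |z j| ≤ C * B

def S_STEP : Prop := S_UNI → (∀ (n : ℕ) (F G : Finset ℕ), F ∈ Sch n → G ⊆ F → G ∈ Sch n) →
  ∀ (Z : Submodule ℝ (ℕ → ℝ)) (n : ℕ) (C : ℝ), 0 < C → Tails Z n → Dom Z n C →
  ∀ i < n, Good Z n i → Good Z n (i + 1)

/-- BASE for SS: `Good Z n 0`, that is small supremum norm (`z` vanishing before `N` exist in `Z` since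
`Z` has infinite dimension; the sums of `p` almost disjoint ones, see STEP; order 0 means
that `F` has at most one element). -/
def S_BASE : Prop := S_UNI → (∀ (n : ℕ) (F G : Finset ℕ), F ∈ Sch n → G ⊆ F → G ∈ Sch n) →
  ∀ (Z : Submodule ℝ (ℕ → ℝ)) (n : ℕ) (C : ℝ), ¬ FiniteDimensional ℝ Z → 0 < C → Tails Z n →
  Dom Z n C → Good Z n 0

/-- KH1. Khintchine's inequality `ℓ_2`-`L_1` (any constant `√3`, from the fourth moment; or Mathlib). -/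
def S_KH1 : Prop := ∀ (p : ℕ) (a : Fin p → ℝ),
  Real.sqrt (∑ i, a i ^ 2) ≤
    Real.sqrt 3 * ((∑ s : Fin p → Bool, |∑ i, (if s i then a i else - a i)|) / 2 ^ p)

/-- KH. Proof: `g_i = f_i ∘ A`, `v_i = B x_i`; approximating `v_i` by finitely supported sequences,
`∑_i g_i(v_i) ≤ ‖B‖ ∑_s ∑_i |g_i(e_s)| ≤ ‖B‖ √p ∑_s (∑_i g_i(e_s)^2)^(1/2) ≤ ‖B‖ √(3p) E_ε ∑_s |∑_i ε_i g_i(e_s)|`
and `∑_{s < M} |g(e_s)| ≤ ‖g‖ ≤ ‖A‖` for `g = ∑ ε_i g_i` (test on a vector of signs). -/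
def S_KH : Prop := S_KH1 → ∀ (X : Type) [NormedAddCommGroup X] [NormedSpace ℝ X] (p : ℕ)
  (U : ZeroAtInftyContinuousMap ℕ ℝ →L[ℝ] X) (V : X →L[ℝ] ZeroAtInftyContinuousMap ℕ ℝ)
  (x : Fin p → X) (f : Fin p → X →L[ℝ] ℝ), (∀ i, ‖x i‖ ≤ 1) → (∀ z, ∑ i, |f i z| ≤ ‖z‖) →
  ∑ i, f i (U (V (x i))) ≤ Real.sqrt (3 * p) * ‖U‖ * ‖V‖

/-- EX. Existence of the completion (e.g. `UniformSpace.Completion` of a type synonym of `ℕ →₀ ℝ` with
the norm, or the closure of the image in bounded functions on pairs (F, signs)). -/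
def S_EX : Prop := ∀ n : ℕ, ∃ (X : Type) (_ : NormedAddCommGroup X) (_ : NormedSpace ℝ X)
  (_ : CompleteSpace X) (ι : (ℕ →₀ ℝ) →ₗ[ℝ] X), DenseRange ι ∧ ∀ x, ‖ι x‖ = schNorm n x

end Pool.Agent.X184.SS
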