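import Pool.Agent.X184.SS.Asm

set_option autoImplicit false

namespace Pool.Agent.X184.SS

open Finset

section

variable {X : Type} [NormedAddCommGroup X] [NormedSpace ℝ X] [CompleteSpace X]
variable (ι : (ℕ →₀ ℝ) →ₗ[ℝ] X)

/-- the operator `T` -/
noncomputable def T : X →L[ℝ] X := (ι ∘ₗ T0).extendOfNorm ι

variable {ι} {n : ℕ}
variable (hd : DenseRange ι) (hn : ∀ x, ‖ι x‖ = schNorm (n + 2) x)
variable (hmon : ∀ k F, F ∈ Sch k → F ∈ Sch (k + 1))
variable (hbd : ∀ (n : ℕ) (x : ℕ → ℝ) (C : ℝ), (∀ G ∈ Sch n, ∑ j ∈ G, |x j| ≤ C) →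
  ∀ F ∈ Sch (n + 1), ∑ j ∈ F, |Tv x j| ≤ 3 * C)

omit [CompleteSpace X] in
include hn hbd in
theorem T0_le (x : ℕ →₀ ℝ) {B : ℝ} (h : ∀ G ∈ Sch (n + 1), ∑ j ∈ G, |x j| ≤ B) :
    ‖ι (T0 x)‖ ≤ 3 * B := by
  rw [hn]
  refine schNorm_le _ fun F hF => ?_
  simp only [T0_apply]
  exact hbd (n + 1) x B h F hF

omit [CompleteSpace X] in
include hn hmon hbd in
theorem T0_le' (x : ℕ →₀ ℝ) : ‖(ι ∘ₗ T0) x‖ ≤ 3 * ‖ι x‖ := by
  rw [LinearMap.comp_apply]
  refine T0_le hn hbd x fun G hG => ?_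
  rw [hn]
  exact le_schNorm x (hmon _ _ hG)

include hd hn hmon hbd in
theorem T_ι (x : ℕ →₀ ℝ) : T ι (ι x) = ι (T0 x) := by
  exact LinearMap.extendOfNorm_eq hd ⟨3, T0_le' hn hmon hbd⟩ x

include hd hn hmon hbd in
theorem T_le (z : X) : ‖T ι z‖ ≤ 3 * ‖z‖ :=
  LinearMap.norm_extendOfNorm_apply_le hd 3 (T0_le' hn hmon hbd) z

include hd hn hmon hbd in
theorem T_dom (z : X) {B : ℝ} (h : ∀ G ∈ Sch (n + 1), ∑ j ∈ G, |coord ι j z| ≤ B) :
    ‖T ι z‖ ≤ 3 * B := by
  refine le_of_forall_pos_le_add fun η hη => ?_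
  obtain ⟨x, hx⟩ := approx hd hn z (show (0 : ℝ) < η / 6 by positivity)
  have h1 : ‖ι (T0 x)‖ ≤ 3 * (B + η / 6) := by
    refine T0_le hn hbd x fun G hG => ?_
    have h2 := sum_near hd hn z x (hmon _ _ hG) hx
    have h3 := h G hG
    have h4 : ∑ j ∈ G, |x j| ≤ ∑ j ∈ G, (|coord ι j z| + |x j - coord ι j z|) := by
      refine Finset.sum_le_sum fun j _ => ?_
      have := abs_add_le (coord ι j z) (x j - coord ι j z)
      rwa [add_sub_cancel] at this
    rw [Finset.sum_add_distrib] at h4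
    linarith
  have h5 : ‖T ι z‖ ≤ ‖T ι (z - ι x)‖ + ‖T ι (ι x)‖ := by
    have := norm_add_le (T ι (z - ι x)) (T ι (ι x))
    rwa [← map_add, sub_add_cancel] at this
  have h6 := T_le hd hn hmon hbd (z - ι x)
  rw [T_ι hd hn hmon hbd] at h5
  linarith

include hd hn hmon hbd in
theorem T_strictlySingular
    (hstep : ∀ (Z : Submodule ℝ (ℕ → ℝ)) (n : ℕ) (C : ℝ), 0 < C → Tails Z n → Dom Z n C →
      ∀ i < n, Good Z n i → Good Z n (i + 1))
    (hbase : ∀ (Z : Submodule ℝ (ℕ → ℝ)) (n : ℕ) (C : ℝ), ¬ FiniteDimensional ℝ Z → 0 < C →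
      Tails Z n → Dom Z n C → Good Z n 0) : StrictlySingular (T ι) := by
  rintro Z - hZ ⟨c, hc, hT⟩
  let L : X →ₗ[ℝ] (ℕ → ℝ) := LinearMap.pi fun j => (coord ι j).toLinearMap
  have hL : Function.Injective L := by
    rw [injective_iff_map_eq_zero]
    intro z hz
    have h1 : ∀ j, coord ι j z = 0 := fun j => congrFun hz j
    have h2 : ‖z‖ ≤ 0 := norm_le_of_coord hd hn z fun F _ => by simp [h1]
    exact norm_le_zero_iff.1 h2
  have hfd : ¬ FiniteDimensional ℝ (Z.map L) := by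
    intro h
    exact hZ (LinearEquiv.finiteDimensional (Submodule.equivMapOfInjective L hL Z).symm)
  have hC : 0 < 3 / c := by positivity
  have htails : Tails (Z.map L) (n + 1) := by
    rintro _ ⟨z, -, rfl⟩ η hη
    exact tails hd hn z hη
  have hdom : Dom (Z.map L) (n + 1) (3 / c) := by
    rintro _ ⟨z, hz, rfl⟩ B hB F hF
    have h1 : ‖T ι z‖ ≤ 3 * B := T_dom hd hn hmon hbd z hB
    have h2 := hT z hz
    have h3 : ∑ j ∈ F, |L z j| ≤ ‖z‖ := sum_coord_le hd hn z hF
    have h4 : ‖z‖ ≤ 3 / c * B := by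
      rw [div_mul_eq_mul_div, le_div_iff₀ hc]
      linarith
    exact h3.trans h4
  have hgood : ∀ i ≤ n + 1, Good (Z.map L) (n + 1) i := by
    intro i
    induction i with
    | zero => intro _; exact hbase _ _ _ hfd hC htails hdom
    | succ i ih => intro hi; exact hstep _ _ _ hC htails hdom i (by omega) (ih (by omega))
  obtain ⟨z, hz, -, -, ⟨F, hF, h1⟩, h2⟩ := hgood (n + 1) le_rfl (c / 12) (by positivity) 0
  have h3 := hdom z hz _ h2 F hF
  have h4 : 3 / c * (c / 12) = 1 / 4 := by field_simp; norm_num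
  rw [h4] at h3
  linarith

/-! ### distance -/

theorem A_mem (huni : S_UNI) (k : ℕ) : A k ∈ Sch 1 := by
  have h := huni 0 (m k + 1) (fun i => {m k + i.val}) (fun i => by simp [Sch])
    (fun i j hij a ha b hb => by
      rw [Finset.mem_singleton] at ha hb
      have : i.val < j.val := hij
      omega)
    (fun i a ha => by
      rw [Finset.mem_singleton] at ha
      omega)
  have e : (univ : Finset (Fin (m k + 1))).biUnion (fun i => ({m k + i.val} : Finset ℕ)) = A k := by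
    ext j
    simp only [Finset.mem_biUnion, Finset.mem_univ, true_and, Finset.mem_singleton, A,
      Finset.mem_Ico]
    constructor
    · rintro ⟨i, rfl⟩
      have := i.2
      omega
    · rintro ⟨h1, h2⟩
      exact ⟨⟨j - m k, by omega⟩, by simp only; omega⟩
  rwa [e] at h

theorem A_mem' (huni : S_UNI) (hmon : ∀ k F, F ∈ Sch k → F ∈ Sch (k + 1)) (n k : ℕ) :
    A k ∈ Sch (n + 1) := by
  induction n with
  | zero => exact A_mem huni k
  | succ n ih => exact hmon _ _ ih

theorem union_mem (huni : S_UNI) (hmon : ∀ k F, F ∈ Sch k → F ∈ Sch (k + 1)) (n p : ℕ) :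
    (univ : Finset (Fin p)).biUnion (fun i => A (p + i.val)) ∈ Sch (n + 2) := by
  refine huni (n + 1) p _ (fun i => A_mem' huni hmon n _) ?_ ?_
  · intro i j hij a ha b hb
    have h1 := (Finset.mem_Ico.1 ha).2
    have h2 := (Finset.mem_Ico.1 hb).1
    have h3 : 2 * m (p + i.val) < m (p + j.val) := m_lt' (by have : i.val < j.val := hij; omega)
    omega
  · intro i a ha
    have h1 := (Finset.mem_Ico.1 ha).1
    have h2 := lt_m (p + i.val)
    omega

include hd hn hmon hbd in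
theorem dist_ge (huni : S_UNI)
    (hkh : ∀ (X : Type) [NormedAddCommGroup X] [NormedSpace ℝ X] (p : ℕ)
      (U : ZeroAtInftyContinuousMap ℕ ℝ →L[ℝ] X) (V : X →L[ℝ] ZeroAtInftyContinuousMap ℕ ℝ)
      (x : Fin p → X) (f : Fin p → X →L[ℝ] ℝ), (∀ i, ‖x i‖ ≤ 1) → (∀ z, ∑ i, |f i z| ≤ ‖z‖) →
      ∑ i, f i (U (V (x i))) ≤ Real.sqrt (3 * p) * ‖U‖ * ‖V‖)
    (U : ZeroAtInftyContinuousMap ℕ ℝ →L[ℝ] X) (V : X →L[ℝ] ZeroAtInftyContinuousMap ℕ ℝ) :
    1 ≤ ‖T ι - U.comp V‖ := by
  by_contra hlt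
  rw [not_le] at hlt
  set d := ‖T ι - U.comp V‖ with hdd
  have key : ∀ p : ℕ, (p : ℝ) ≤ p * d + Real.sqrt (3 * p) * ‖U‖ * ‖V‖ := by
    intro p
    let x : Fin p → X := fun i => ι (Finsupp.single (m (p + i.val)) 1)
    let f : Fin p → X →L[ℝ] ℝ := fun i => ∑ j ∈ A (p + i.val), coord ι j
    have hx : ∀ i, ‖x i‖ ≤ 1 := by
      intro i
      show ‖ι (Finsupp.single (m (p + i.val)) 1)‖ ≤ 1
      rw [hn]
      refine schNorm_le _ fun F _ => ?_
      calc ∑ j ∈ F, |(Finsupp.single (m (p + i.val)) (1 : ℝ)) j|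
          ≤ ∑ j ∈ F, (if m (p + i.val) = j then 1 else 0) := by
            refine Finset.sum_le_sum fun j _ => ?_
            rw [Finsupp.single_apply]
            split_ifs <;> simp
        _ ≤ 1 := by
            rw [Finset.sum_ite_eq]
            split_ifs <;> norm_num
    have hf : ∀ z, ∑ i, |f i z| ≤ ‖z‖ := by
      intro z
      have h1 := sum_coord_le hd hn z (union_mem huni hmon n p)
      rw [Finset.sum_biUnion] at h1
      · refine le_trans (Finset.sum_le_sum fun i _ => ?_) h1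
        show |(∑ j ∈ A (p + i.val), coord ι j) z| ≤ _
        rw [_root_.sum_apply]
        exact Finset.abs_sum_le_sum_abs _ _
      · intro i _ j _ hij
        rw [Function.onFun, Finset.disjoint_left]
        intro a ha hb
        exact hij (Fin.ext (by have := A_disj ha hb; omega))
    have hfT : ∀ i, f i (T ι (x i)) = 1 := by
      intro i
      show (∑ j ∈ A (p + i.val), coord ι j) (T ι (ι (Finsupp.single (m (p + i.val)) 1))) = 1
      rw [T_ι hd hn hmon hbd, _root_.sum_apply]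
      have h1 : ∀ j ∈ A (p + i.val), coord ι j (ι (T0 (Finsupp.single (m (p + i.val)) 1))) =
          1 / ((m (p + i.val) : ℝ) + 1) := by
        intro j hj
        rw [coord_ι hd hn, T0_apply, Tv_of_mem _ hj, Finsupp.single_eq_same]
      rw [Finset.sum_congr rfl h1, Finset.sum_const, nsmul_eq_mul]
      have h2 : (A (p + i.val)).card = m (p + i.val) + 1 := by
        rw [A, Nat.card_Ico]; omega
      rw [h2]
      push_cast
      field_simp
    have h1 : ∑ i, f i (T ι (x i)) = p := by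
      rw [Finset.sum_congr rfl fun i _ => hfT i]
      simp
    have h2 : ∑ i, f i ((T ι - U.comp V) (x i)) ≤ p * d := by
      calc ∑ i, f i ((T ι - U.comp V) (x i)) ≤ ∑ i : Fin p, d := by
            refine Finset.sum_le_sum fun i _ => ?_
            have h3 := hf ((T ι - U.comp V) (x i))
            have h4 : |f i ((T ι - U.comp V) (x i))| ≤
                ∑ l, |f l ((T ι - U.comp V) (x i))| :=
              Finset.single_le_sum (f := fun l => |f l ((T ι - U.comp V) (x i))|)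
                (fun l _ => abs_nonneg _) (Finset.mem_univ i)
            have h5 : ‖(T ι - U.comp V) (x i)‖ ≤ d := by
              have := (T ι - U.comp V).le_opNorm (x i)
              refine this.trans ?_
              exact mul_le_of_le_one_right (norm_nonneg _) (hx i)
            exact (le_abs_self _).trans (h4.trans (h3.trans h5))
        _ = p * d := by simp
    have h3 := hkh X p U V x f hx hf
    have h4 : ∑ i, f i ((T ι - U.comp V) (x i)) =
        ∑ i, f i (T ι (x i)) - ∑ i, f i (U (V (x i))) := by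
      rw [← Finset.sum_sub_distrib]
      refine Finset.sum_congr rfl fun i _ => ?_
      rw [_root_.sub_apply, map_sub, ContinuousLinearMap.comp_apply]
    linarith
  -- let `p` be large
  have hd1 : 0 < 1 - d := by linarith
  set K := ‖U‖ * ‖V‖ with hK
  have hK0 : 0 ≤ K := by positivity
  obtain ⟨p, hp⟩ := exists_nat_gt (3 * (K / (1 - d)) ^ 2 + 1)
  have hp0 : (0 : ℝ) < p := lt_of_le_of_lt (by positivity) hp
  have h1 := key p
  have h2 : (p : ℝ) * (1 - d) ≤ Real.sqrt (3 * p) * K := by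
    rw [hK, ← mul_assoc]; linarith
  have h3 : ((p : ℝ) * (1 - d)) ^ 2 ≤ (Real.sqrt (3 * p) * K) ^ 2 :=
    pow_le_pow_left₀ (by positivity) h2 2
  rw [mul_pow, mul_pow, Real.sq_sqrt (by positivity)] at h3
  have h4 : (p : ℝ) * (1 - d) ^ 2 ≤ 3 * K ^ 2 := by
    refine le_of_mul_le_mul_left (a := (p : ℝ)) ?_ hp0
    linarith
  have h5 : 3 * (K / (1 - d)) ^ 2 * (1 - d) ^ 2 = 3 * K ^ 2 := by
    have : 1 - d ≠ 0 := hd1.ne'
    field_simp
  have h6 : (3 * (K / (1 - d)) ^ 2 + 1) * (1 - d) ^ 2 < p * (1 - d) ^ 2 :=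
    mul_lt_mul_of_pos_right hp (by positivity)
  have h7 : 0 < (1 - d) ^ 2 := by positivity
  linarith

end

end Pool.Agent.X184.SS
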