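import Pool.Agent.X184.SS.Stm

/-! Project SP (MP_a8437e_an): the projection onto a copy of `(⊕ ℓ_1^i)_{c_0}` is in all spatial ideals. -/

set_option autoImplicit false

namespace Pool.Agent.X184.SS

open Finset

/-- LEM. Flat vectors; `p` depends on `ε` only. Induction on `n`.
`n = 0`: average of `p ≥ 1/ε` elements of `N`, `G r` singletons. `n + 1`: `p ≥ 2/ε`,
`z = (1/p) ∑_{r<p} w_r`, `w_r` chosen successively by LEM n for `ε_r = 1/(p (v_{r-1}+1))`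
(`v_{r-1}` = max of the support of `w_{r-1}`), beyond `v_{r-1}`, `u` and beyond `p_r = p(ε_r)`, so that `supp w_r`
is in `S_{n+1}` (UNI + HER): take `G r = supp w_r`. For `F ∈ S_{n+1}`, `v_{r-1} < min F ≤ v_r`: `w_r` gives at most `1`,
later ones at most `(min F + 1) ε_{r'} ≤ 1/p`, so `∑_F z ≤ 2/p ≤ ε`. -/
def S_LEM : Prop := S_UNI → (∀ (n : ℕ) (F G : Finset ℕ), F ∈ Sch n → G ⊆ F → G ∈ Sch n) →
  ∀ (n : ℕ) (N : Set ℕ), N.Infinite → ∀ ε : ℝ, 0 < ε → ∃ p : ℕ, ∀ u : ℕ,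
    ∃ (z : ℕ →₀ ℝ) (G : Fin p → Finset ℕ), (∀ j, 0 ≤ z j) ∧ ∑ j ∈ z.support, z j = 1 ∧
      (∀ j ∈ z.support, j ∈ N ∧ u ≤ j) ∧ z.support ⊆ univ.biUnion G ∧ (∀ r, G r ∈ Sch n) ∧
      (∀ r s, r < s → ∀ a ∈ G r, ∀ b ∈ G s, a < b) ∧ (∀ r, ∀ a ∈ G r, a ∈ z.support) ∧
      ∀ F ∈ Sch n, ∑ j ∈ F, z j ≤ ε

def Joint : Prop := ∀ (n : ℕ) (N : Set ℕ), N.Infinite → ∀ ε : ℝ, 0 < ε → ∀ d u : ℕ,
    ∃ z : ℕ → ℕ →₀ ℝ, (∀ l j, 0 ≤ z l j) ∧ (∀ l < d, ∑ j ∈ (z l).support, z l j = 1) ∧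
      (∀ l, d ≤ l → z l = 0) ∧
      (∀ l, ∀ j ∈ (z l).support, j ∈ N ∧ u ≤ j) ∧
      (∀ l l', l ≠ l' → Disjoint (z l).support (z l').support) ∧
      (range d).biUnion (fun l => (z l).support) ∈ Sch (n + 1) ∧
      ∀ l, ∀ F ∈ Sch n, ∑ j ∈ F, z l j ≤ ε

/-- JOINT. From LEM: `d` successive vectors of LEM beyond `max u (p d)`: together `p d` members of
`S_n`, so the union is in `S_{n+1}` by UNI (reindex `Fin (d * p)` or induct on `d`) and HER. -/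
def S_JOINT : Prop := S_UNI → (∀ (n : ℕ) (F G : Finset ℕ), F ∈ Sch n → G ⊆ F → G ∈ Sch n) →
  (∀ (n : ℕ) (N : Set ℕ), N.Infinite → ∀ ε : ℝ, 0 < ε → ∃ p : ℕ, ∀ u : ℕ,
    ∃ (z : ℕ →₀ ℝ) (G : Fin p → Finset ℕ), (∀ j, 0 ≤ z j) ∧ ∑ j ∈ z.support, z j = 1 ∧
      (∀ j ∈ z.support, j ∈ N ∧ u ≤ j) ∧ z.support ⊆ univ.biUnion G ∧ (∀ r, G r ∈ Sch n) ∧
      (∀ r s, r < s → ∀ a ∈ G r, ∀ b ∈ G s, a < b) ∧ (∀ r, ∀ a ∈ G r, a ∈ z.support) ∧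
      ∀ F ∈ Sch n, ∑ j ∈ F, z j ≤ ε) → Joint

structure IsSys (n : ℕ) (N : Set ℕ) (z : ℕ → ℕ → ℕ →₀ ℝ) : Prop where
  nonneg : ∀ i l j, 0 ≤ z i l j
  one : ∀ i l, l ≤ i → ∑ j ∈ (z i l).support, z i l j = 1
  zero : ∀ i l, i < l → z i l = 0
  supp : ∀ i l, ∀ j ∈ (z i l).support, j ∈ N
  disj : ∀ i l i' l', (i, l) ≠ (i', l') → Disjoint (z i l).support (z i' l').support
  mem : ∀ i, (range (i + 1)).biUnion (fun l => (z i l).support) ∈ Sch n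
  flat : ∀ F ∈ Sch n, ∀ (I : Finset ℕ) (s : ℕ → ℕ), ∑ i ∈ I, ∑ j ∈ F, z i (s i) j ≤ 2

/-- SYS. From JOINT: blocks `i = 0, 1, …` chosen successively, block `i` with `d = i + 1`, beyond
`v_{i-1}` (max of all earlier supports), `ε_i = 1/(2^(i+1) (v_{i-1} + 1))`. For `F ∈ S_{n+1}` with
`v_{i-1} < min F ≤ v_i`: block `i` gives at most `1`, block `i' > i` at most `(min F + 1) ε_{i'} ≤ 2^{-(i'+1)}`. -/
def S_SYS : Prop := (∀ (n : ℕ) (F G : Finset ℕ), F ∈ Sch n → G ⊆ F → G ∈ Sch n) → Joint →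
  ∀ (n : ℕ) (N : Set ℕ), N.Infinite → ∃ z, IsSys (n + 1) N z

end Pool.Agent.X184.SS
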