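import Pool.Agent.X184.SS.Asm2
import Pool.Agent.X184.SS.Stm2

set_option autoImplicit false

namespace Pool.Agent.X184.SS

open Finset

section

variable (z z' : ℕ → ℕ → ℕ →₀ ℝ)

open Classical in
noncomputable def g (j : ℕ) : ℕ →₀ ℝ :=
  if h : ∃ q : ℕ × ℕ, j ∈ (z q.1 q.2).support then z' h.choose.1 h.choose.2 else 0

open Classical in
noncomputable def blk (j : ℕ) : ℕ :=
  if h : ∃ q : ℕ × ℕ, j ∈ (z q.1 q.2).support then h.choose.1 else 0

noncomputable def R0 : (ℕ →₀ ℝ) →ₗ[ℝ] (ℕ →₀ ℝ) := Finsupp.linearCombination ℝ (g z z')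

variable {z z'} {n : ℕ} {N N' : Set ℕ}

theorem g_of_mem (hz : IsSys n N z) {i l j : ℕ} (h : j ∈ (z i l).support) : g z z' j = z' i l := by
  have h' : ∃ q : ℕ × ℕ, j ∈ (z q.1 q.2).support := ⟨(i, l), h⟩
  unfold g
  rw [dif_pos h']
  have h1 := h'.choose_spec
  by_contra hne
  have h2 : (h'.choose.1, h'.choose.2) ≠ (i, l) := by
    intro he
    apply hne
    have e1 : h'.choose.1 = i := congrArg Prod.fst he
    have e2 : h'.choose.2 = l := congrArg Prod.snd he
    rw [e1, e2]
  exact Finset.disjoint_left.1 (hz.disj _ _ _ _ h2) h1 h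

theorem R0_z (hz : IsSys n N z) {i l : ℕ} (hl : l ≤ i) : R0 z z' (z i l) = z' i l := by
  unfold R0
  rw [Finsupp.linearCombination_apply, Finsupp.sum]
  rw [Finset.sum_congr rfl fun j hj => by rw [g_of_mem hz hj], ← Finset.sum_smul, hz.one i l hl,
    one_smul]

theorem R0_le (hz : IsSys n N z) (hz' : IsSys n N' z') (x : ℕ →₀ ℝ) :
    schNorm n (R0 z z' x) ≤ 2 * schNorm n x := by
  refine schNorm_le _ fun F hF => ?_
  have hx0 : 0 ≤ schNorm n x := by
    have := le_schNorm x (empty_mem n); simpa using this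
  -- the maxima
  have hmax : ∀ i, ∃ s ≤ i, ∀ l ≤ i, ∑ t ∈ F, z' i l t ≤ ∑ t ∈ F, z' i s t := by
    intro i
    obtain ⟨s, hs, h⟩ := Finset.exists_max_image (range (i + 1)) (fun l => ∑ t ∈ F, z' i l t)
      ⟨0, by simp⟩
    exact ⟨s, by have := Finset.mem_range.1 hs; omega,
      fun l hl => h l (Finset.mem_range.2 (by omega))⟩
  choose s hs1 hs2 using hmax
  have hflat := hz'.flat F hF (x.support.image (blk z)) s
  have hg0 : ∀ j t, 0 ≤ g z z' j t := by
    intro j t
    unfold g
    split_ifs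
    · exact hz'.nonneg _ _ _
    · simp
  calc ∑ t ∈ F, |R0 z z' x t| ≤ ∑ t ∈ F, ∑ j ∈ x.support, |x j| * g z z' j t := by
        refine Finset.sum_le_sum fun t _ => ?_
        unfold R0
        rw [Finsupp.linearCombination_apply, Finsupp.sum, Finsupp.finset_sum_apply]
        refine (Finset.abs_sum_le_sum_abs _ _).trans (Finset.sum_le_sum fun j _ => ?_)
        rw [Finsupp.smul_apply, smul_eq_mul, abs_mul, abs_of_nonneg (hg0 j t)]
    _ = ∑ j ∈ x.support, |x j| * ∑ t ∈ F, g z z' j t := by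
        rw [Finset.sum_comm]
        exact Finset.sum_congr rfl fun j _ => by rw [Finset.mul_sum]
    _ = ∑ i ∈ x.support.image (blk z), ∑ j ∈ x.support with blk z j = i,
          |x j| * ∑ t ∈ F, g z z' j t :=
        (Finset.sum_fiberwise_of_maps_to (fun j hj => Finset.mem_image_of_mem _ hj) _).symm
    _ ≤ ∑ i ∈ x.support.image (blk z), (∑ t ∈ F, z' i (s i) t) * schNorm n x := by
        refine Finset.sum_le_sum fun i _ => ?_
        set W := (range (i + 1)).biUnion (fun l => (z i l).support) with hW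
        have hM0 : 0 ≤ ∑ t ∈ F, z' i (s i) t := Finset.sum_nonneg fun t _ => hz'.nonneg _ _ _
        have h1 : ∀ j ∈ x.support.filter (fun j => blk z j = i), |x j| * ∑ t ∈ F, g z z' j t ≤
            if j ∈ W then |x j| * ∑ t ∈ F, z' i (s i) t else 0 := by
          intro j hj
          have hb := (Finset.mem_filter.1 hj).2
          by_cases h : ∃ q : ℕ × ℕ, j ∈ (z q.1 q.2).support
          · have h2 := h.choose_spec
            have hb' : h.choose.1 = i := by
              unfold blk at hb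
              rwa [dif_pos h] at hb
            have hle : h.choose.2 ≤ i := by
              by_contra hlt
              rw [hz.zero _ _ (by omega)] at h2
              simp at h2
            have hjW : j ∈ W := by
              rw [hW, Finset.mem_biUnion]
              exact ⟨h.choose.2, Finset.mem_range.2 (by omega), by rw [← hb']; exact h2⟩
            rw [if_pos hjW]
            refine mul_le_mul_of_nonneg_left ?_ (abs_nonneg _)
            rw [g_of_mem hz (z' := z') h2, hb']
            exact hs2 i _ hle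
          · have : g z z' j = 0 := by unfold g; rw [dif_neg h]
            rw [this]
            simp only [Finsupp.coe_zero, Pi.zero_apply, Finset.sum_const_zero, mul_zero]
            split_ifs
            · exact mul_nonneg (abs_nonneg _) hM0
            · exact le_rfl
        refine (Finset.sum_le_sum h1).trans ?_
        rw [← Finset.sum_filter, ← Finset.sum_mul, mul_comm]
        refine mul_le_mul_of_nonneg_left ?_ hM0
        refine le_trans ?_ (le_schNorm x (hz.mem i))
        exact Finset.sum_le_sum_of_subset_of_nonneg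
          (fun j hj => (Finset.mem_filter.1 hj).2) (fun _ _ _ => abs_nonneg _)
    _ = (∑ i ∈ x.support.image (blk z), ∑ t ∈ F, z' i (s i) t) * schNorm n x := by
        rw [Finset.sum_mul]
    _ ≤ 2 * schNorm n x := mul_le_mul_of_nonneg_right hflat hx0

end

section

variable {X : Type} [NormedAddCommGroup X] [NormedSpace ℝ X] [CompleteSpace X]
variable (ι : (ℕ →₀ ℝ) →ₗ[ℝ] X) (z z' : ℕ → ℕ → ℕ →₀ ℝ)

noncomputable def R : X →L[ℝ] X := (ι ∘ₗ R0 z z').extendOfNorm ι

variable {ι z z'} {n : ℕ} {N N' : Set ℕ}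
variable (hd : DenseRange ι) (hn : ∀ x, ‖ι x‖ = schNorm n x)

include hd hn in
theorem R_ι (hz : IsSys n N z) (hz' : IsSys n N' z') (x : ℕ →₀ ℝ) :
    R ι z z' (ι x) = ι (R0 z z' x) := by
  refine LinearMap.extendOfNorm_eq hd ⟨2, fun x => ?_⟩ x
  rw [LinearMap.comp_apply, hn, hn]
  exact R0_le hz hz' x

/-- `P` is the basis projection `P_N`. -/
def IsBasisProj (ι : (ℕ →₀ ℝ) →ₗ[ℝ] X) (N : Set ℕ) (P : X →L[ℝ] X) : Prop :=
  (∀ j ∈ N, P (ι (Finsupp.single j 1)) = ι (Finsupp.single j 1)) ∧
    ∀ j, j ∉ N → P (ι (Finsupp.single j 1)) = 0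

omit [CompleteSpace X] in
theorem proj_eq {P : X →L[ℝ] X} (hP : IsBasisProj ι N P) (x : ℕ →₀ ℝ)
    (hx : ∀ j ∈ x.support, j ∈ N) : P (ι x) = ι x := by
  have e : x = ∑ j ∈ x.support, x j • Finsupp.single j (1 : ℝ) := by
    conv_lhs => rw [← Finsupp.sum_single x, Finsupp.sum]
    refine Finset.sum_congr rfl fun j _ => ?_
    rw [Finsupp.smul_single, smul_eq_mul, mul_one]
  rw [e, map_sum, map_sum]
  refine Finset.sum_congr rfl fun j hj => ?_
  rw [map_smul, map_smul, hP.1 j (hx j hj)]

include hd hn in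
theorem factor (hz : IsSys n N z) (hz' : IsSys n N' z') {P : X →L[ℝ] X} (hP : IsBasisProj ι N' P) :
    R ι z z = (R ι z' z).comp (P.comp (R ι z z')) := by
  apply ContinuousLinearMap.ext
  intro w
  refine congrFun (hd.equalizer (R ι z z).continuous
    ((R ι z' z).comp (P.comp (R ι z z'))).continuous ?_) w
  funext x
  show R ι z z (ι x) = R ι z' z (P (R ι z z' (ι x)))
  rw [R_ι hd hn hz hz, R_ι hd hn hz hz']
  have hlin : (ι ∘ₗ R0 z z) =
      ((R ι z' z).toLinearMap ∘ₗ P.toLinearMap ∘ₗ ι ∘ₗ R0 z z') := by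
    refine Finsupp.lhom_ext' fun j => ?_
    refine LinearMap.ext_ring ?_
    show ι (R0 z z (Finsupp.single j 1)) = R ι z' z (P (ι (R0 z z' (Finsupp.single j 1))))
    have e1 : ∀ y : ℕ → ℕ → ℕ →₀ ℝ, R0 z y (Finsupp.single j 1) = g z y j := by
      intro y
      unfold R0
      rw [Finsupp.linearCombination_single, one_smul]
    rw [e1, e1]
    by_cases h : ∃ q : ℕ × ℕ, j ∈ (z q.1 q.2).support
    · obtain ⟨⟨i, l⟩, hq⟩ := h
      have hle : l ≤ i := by
        by_contra hlt
        rw [hz.zero _ _ (by omega)] at hq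
        simp at hq
      rw [g_of_mem hz hq, g_of_mem hz hq, proj_eq hP _ (hz'.supp i l), R_ι hd hn hz' hz,
        R0_z hz' hle]
    · have h1 : ∀ y : ℕ → ℕ → ℕ →₀ ℝ, g z y j = 0 := fun y => by unfold g; rw [dif_neg h]
      rw [h1, h1, map_zero, map_zero, map_zero]
  exact congrArg (fun L => L x) hlin

include hd hn in
theorem dist_ge' (hz : IsSys n N z)
    (hkh : ∀ (X : Type) [NormedAddCommGroup X] [NormedSpace ℝ X] (p : ℕ)
      (U : ZeroAtInftyContinuousMap ℕ ℝ →L[ℝ] X) (V : X →L[ℝ] ZeroAtInftyContinuousMap ℕ ℝ)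
      (x : Fin p → X) (f : Fin p → X →L[ℝ] ℝ), (∀ i, ‖x i‖ ≤ 1) → (∀ z, ∑ i, |f i z| ≤ ‖z‖) →
      ∑ i, f i (U (V (x i))) ≤ Real.sqrt (3 * p) * ‖U‖ * ‖V‖)
    (U : ZeroAtInftyContinuousMap ℕ ℝ →L[ℝ] X) (V : X →L[ℝ] ZeroAtInftyContinuousMap ℕ ℝ) :
    1 ≤ ‖R ι z z - U.comp V‖ := by
  by_contra hlt
  rw [not_le] at hlt
  set d := ‖R ι z z - U.comp V‖ with hdd
  have key : ∀ p : ℕ, (p : ℝ) ≤ p * d + Real.sqrt (3 * p) * ‖U‖ * ‖V‖ := by
    intro p
    let x : Fin p → X := fun i => ι (z p i.val)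
    let f : Fin p → X →L[ℝ] ℝ := fun i => ∑ j ∈ (z p i.val).support, coord ι j
    have hx : ∀ i, ‖x i‖ ≤ 1 := by
      intro i
      show ‖ι (z p i.val)‖ ≤ 1
      rw [hn]
      refine schNorm_le _ fun F _ => ?_
      refine (sum_le_supp _ F).trans ?_
      rw [← hz.one p i.val i.2.le]
      exact le_of_eq (Finset.sum_congr rfl fun j _ => abs_of_nonneg (hz.nonneg _ _ _))
    have hf : ∀ w, ∑ i, |f i w| ≤ ‖w‖ := by
      intro w
      have h1 := sum_coord_le hd hn w (hz.mem p)
      rw [Finset.sum_biUnion] at h1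
      · have h2 : ∑ i : Fin p, |f i w| ≤
            ∑ i : Fin p, ∑ j ∈ (z p i.val).support, |coord ι j w| := by
          refine Finset.sum_le_sum fun i _ => ?_
          show |(∑ j ∈ (z p i.val).support, coord ι j) w| ≤ _
          rw [_root_.sum_apply]
          exact Finset.abs_sum_le_sum_abs _ _
        have h3 : ∑ i : Fin p, ∑ j ∈ (z p i.val).support, |coord ι j w| =
            ∑ l ∈ range p, ∑ j ∈ (z p l).support, |coord ι j w| :=
          Fin.sum_univ_eq_sum_range (fun l => ∑ j ∈ (z p l).support, |coord ι j w|) p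
        have h4 : ∑ l ∈ range p, ∑ j ∈ (z p l).support, |coord ι j w| ≤
            ∑ l ∈ range (p + 1), ∑ j ∈ (z p l).support, |coord ι j w| :=
          Finset.sum_le_sum_of_subset_of_nonneg (Finset.range_subset_range.2 (Nat.le_succ p))
            (fun _ _ _ => Finset.sum_nonneg fun _ _ => abs_nonneg _)
        linarith
      · intro l _ l' _ hll
        exact hz.disj _ _ _ _ (fun h => hll (congrArg Prod.snd h))
    have hfT : ∀ i, f i (R ι z z (x i)) = 1 := by
      intro i
      show (∑ j ∈ (z p i.val).support, coord ι j) (R ι z z (ι (z p i.val))) = 1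
      rw [R_ι hd hn hz hz, R0_z hz i.2.le, _root_.sum_apply, ← hz.one p i.val i.2.le]
      exact Finset.sum_congr rfl fun j _ => coord_ι hd hn j _
    have h1 : ∑ i, f i (R ι z z (x i)) = p := by
      rw [Finset.sum_congr rfl fun i _ => hfT i]
      simp
    have h2 : ∑ i, f i ((R ι z z - U.comp V) (x i)) ≤ p * d := by
      calc ∑ i, f i ((R ι z z - U.comp V) (x i)) ≤ ∑ i : Fin p, d := by
            refine Finset.sum_le_sum fun i _ => ?_
            have h3 := hf ((R ι z z - U.comp V) (x i))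
            have h4 : |f i ((R ι z z - U.comp V) (x i))| ≤
                ∑ l, |f l ((R ι z z - U.comp V) (x i))| :=
              Finset.single_le_sum (f := fun l => |f l ((R ι z z - U.comp V) (x i))|)
                (fun l _ => abs_nonneg _) (Finset.mem_univ i)
            have h5 : ‖(R ι z z - U.comp V) (x i)‖ ≤ d := by
              have := (R ι z z - U.comp V).le_opNorm (x i)
              refine this.trans ?_
              exact mul_le_of_le_one_right (norm_nonneg _) (hx i)
            exact (le_abs_self _).trans (h4.trans (h3.trans h5))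
        _ = p * d := by simp
    have h3 := hkh X p U V x f hx hf
    have h4 : ∑ i, f i ((R ι z z - U.comp V) (x i)) =
        ∑ i, f i (R ι z z (x i)) - ∑ i, f i (U (V (x i))) := by
      rw [← Finset.sum_sub_distrib]
      refine Finset.sum_congr rfl fun i _ => ?_
      rw [_root_.sub_apply, map_sub, ContinuousLinearMap.comp_apply]
    linarith
  have hd1 : 0 < 1 - d := by linarith
  set K := ‖U‖ * ‖V‖ with hK
  have hK0 : 0 ≤ K := by positivity
  obtain ⟨p, hp⟩ := exists_nat_gt (3 * (K / (1 - d)) ^ 2 + 1)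
  have hp0 : (0 : ℝ) < p := lt_of_le_of_lt (by positivity) hp
  have h1 := key p
  have h2 : (p : ℝ) * (1 - d) ≤ Real.sqrt (3 * p) * K := by
    rw [hK, ← mul_assoc]; linarith
  have h3 : ((p : ℝ) * (1 - d)) ^ 2 ≤ (Real.sqrt (3 * p) * K) ^ 2 :=
    pow_le_pow_left₀ (by positivity) h2 2
  rw [mul_pow, mul_pow, Real.sq_sqrt (by positivity)] at h3
  have h4 : (p : ℝ) * (1 - d) ^ 2 ≤ 3 * K ^ 2 := by
    refine le_of_mul_le_mul_left (a := (p : ℝ)) ?_ hp0
    linarith
  have h5 : 3 * (K / (1 - d)) ^ 2 * (1 - d) ^ 2 = 3 * K ^ 2 := by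
    have : 1 - d ≠ 0 := hd1.ne'
    field_simp
  have h6 : (3 * (K / (1 - d)) ^ 2 + 1) * (1 - d) ^ 2 < p * (1 - d) ^ 2 :=
    mul_lt_mul_of_pos_right hp (by positivity)
  have h7 : 0 < (1 - d) ^ 2 := by positivity
  linarith

end

end Pool.Agent.X184.SS
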