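import Pool.Agent.X184.SS.Stm

set_option autoImplicit false

namespace Pool.Agent.X184.SS

open Finset

theorem empty_mem (n : ℕ) : (∅ : Finset ℕ) ∈ Sch n := by
  cases n with
  | zero => simp [Sch]
  | succ n =>
    exact ⟨0, fun i => i.elim0, fun i => i.elim0, fun i => i.elim0, by simp, by simp⟩

theorem sum_le_supp (x : ℕ →₀ ℝ) (F : Finset ℕ) : ∑ j ∈ F, |x j| ≤ ∑ j ∈ x.support, |x j| := by
  have h1 : ∑ j ∈ F, |x j| = ∑ j ∈ F ∩ x.support, |x j| := by
    symm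
    apply Finset.sum_subset Finset.inter_subset_left
    intro j hj hn
    have : j ∉ x.support := fun h => hn (Finset.mem_inter.2 ⟨hj, h⟩)
    rw [Finsupp.notMem_support_iff.1 this, abs_zero]
  rw [h1]
  exact Finset.sum_le_sum_of_subset_of_nonneg Finset.inter_subset_right (fun _ _ _ => abs_nonneg _)

theorem le_schNorm {n : ℕ} (x : ℕ →₀ ℝ) {F : Finset ℕ} (hF : F ∈ Sch n) :
    ∑ j ∈ F, |x j| ≤ schNorm n x := by
  refine le_ciSup (f := fun F : {F : Finset ℕ // F ∈ Sch n} => ∑ j ∈ F.1, |x j|) ?_ ⟨F, hF⟩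
  exact ⟨∑ j ∈ x.support, |x j|, by rintro _ ⟨G, rfl⟩; exact sum_le_supp x G.1⟩

theorem schNorm_le {n : ℕ} (x : ℕ →₀ ℝ) {B : ℝ} (h : ∀ F ∈ Sch n, ∑ j ∈ F, |x j| ≤ B) :
    schNorm n x ≤ B := by
  haveI : Nonempty {F : Finset ℕ // F ∈ Sch n} := ⟨⟨∅, empty_mem n⟩⟩
  exact ciSup_le fun F => h F.1 F.2

theorem singleton_mem (n j : ℕ) : ({j} : Finset ℕ) ∈ Sch n := by
  induction n with
  | zero => simp [Sch]
  | succ n ih =>
    refine ⟨1, fun _ => {j}, fun _ => ⟨Finset.singleton_nonempty j, ih⟩, ?_, ?_, ?_⟩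
    · intro a b hab; exact absurd hab (by omega)
    · simp
    · intro a _; omega

theorem Tv_add (x y : ℕ → ℝ) (j : ℕ) : Tv (x + y) j = Tv x j + Tv y j := by
  unfold Tv
  rw [← Finset.sum_add_distrib]
  refine Finset.sum_congr rfl fun k _ => ?_
  split_ifs
  · simp only [Pi.add_apply]; ring
  · simp

theorem Tv_smul (c : ℝ) (x : ℕ → ℝ) (j : ℕ) : Tv (c • x) j = c * Tv x j := by
  unfold Tv
  rw [Finset.mul_sum]
  refine Finset.sum_congr rfl fun k _ => ?_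
  split_ifs
  · simp only [Pi.smul_apply, smul_eq_mul]; ring
  · simp

theorem lt_m (k : ℕ) : k < m k := by
  unfold m
  have h1 : k + 1 < 4 ^ (k + 1) := Nat.lt_pow_self (by norm_num)
  have h2 : 4 ^ (k + 1) < 2 ^ (4 ^ (k + 1)) := Nat.lt_pow_self (by norm_num)
  omega

theorem m_lt (k : ℕ) : 2 * m k < m (k + 1) := by
  unfold m
  have h1 : 4 ^ (k + 1) + 1 < 4 ^ (k + 1 + 1) := by
    have : 1 ≤ 4 ^ (k + 1) := Nat.one_le_pow _ _ (by norm_num)
    rw [pow_succ 4 (k + 1)]; omega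
  calc 2 * 2 ^ (4 ^ (k + 1)) = 2 ^ (4 ^ (k + 1) + 1) := by rw [pow_succ]; ring
    _ < 2 ^ (4 ^ (k + 1 + 1)) := Nat.pow_lt_pow_right (by norm_num) h1

theorem m_mono : StrictMono m := strictMono_nat_of_lt_succ fun k => by have := m_lt k; omega

theorem m_lt' {k l : ℕ} (h : k < l) : 2 * m k < m l :=
  lt_of_lt_of_le (m_lt k) (m_mono.monotone h)

theorem A_disj {k l j : ℕ} (hk : j ∈ A k) (hl : j ∈ A l) : k = l := by
  unfold A at hk hl
  rw [Finset.mem_Ico] at hk hl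
  rcases lt_trichotomy k l with h | h | h
  · have := m_lt' h; omega
  · exact h
  · have := m_lt' h; omega

theorem Tv_of_mem (x : ℕ → ℝ) {k j : ℕ} (h : j ∈ A k) : Tv x j = x (m k) / (m k + 1) := by
  unfold Tv
  rw [Finset.sum_eq_single k]
  · rw [if_pos h]
  · intro l _ hl
    rw [if_neg]
    intro h'
    exact hl (A_disj h' h)
  · intro hk
    exfalso
    apply hk
    rw [Finset.mem_range]
    have h1 := lt_m k
    have h2 := (Finset.mem_Ico.1 h).1
    omega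

theorem Tv_support (x : ℕ →₀ ℝ) (j : ℕ) (h : Tv x j ≠ 0) :
    j ∈ x.support.biUnion fun i => range (2 * i + 1) := by
  unfold Tv at h
  obtain ⟨k, _, hk⟩ := Finset.exists_ne_zero_of_sum_ne_zero h
  rw [Finset.mem_biUnion]
  split_ifs at hk with hj
  · refine ⟨m k, ?_, ?_⟩
    · rw [Finsupp.mem_support_iff]
      intro h0
      apply hk
      rw [h0, zero_div]
    · rw [Finset.mem_range]
      exact (Finset.mem_Ico.1 hj).2
  · exact absurd rfl hk

noncomputable def T0 : (ℕ →₀ ℝ) →ₗ[ℝ] (ℕ →₀ ℝ) where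
  toFun x := Finsupp.onFinset (x.support.biUnion fun i => range (2 * i + 1)) (Tv x) (Tv_support x)
  map_add' x y := by
    ext j
    simp only [Finsupp.onFinset_apply, Finsupp.add_apply]
    have : (⇑(x + y) : ℕ → ℝ) = ⇑x + ⇑y := Finsupp.coe_add x y
    rw [this, Tv_add]
  map_smul' c x := by
    ext j
    simp only [Finsupp.onFinset_apply, Finsupp.smul_apply, RingHom.id_apply, smul_eq_mul]
    have : (⇑(c • x) : ℕ → ℝ) = c • ⇑x := Finsupp.coe_smul c x
    rw [this, Tv_smul]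

theorem T0_apply (x : ℕ →₀ ℝ) (j : ℕ) : T0 x j = Tv x j := rfl

/-- strictly singular: not bounded below on any closed subspace of infinite dimension -/
def StrictlySingular {X : Type} [NormedAddCommGroup X] [NormedSpace ℝ X] (T : X →L[ℝ] X) : Prop :=
  ∀ Z : Submodule ℝ X, IsClosed (Z : Set X) → ¬ FiniteDimensional ℝ Z →
    ¬ ∃ c : ℝ, 0 < c ∧ ∀ z ∈ Z, c * ‖z‖ ≤ ‖T z‖

section

variable {X : Type} [NormedAddCommGroup X] [NormedSpace ℝ X] [CompleteSpace X]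
variable (ι : (ℕ →₀ ℝ) →ₗ[ℝ] X) (N : ℕ)

noncomputable def coord (j : ℕ) : X →L[ℝ] ℝ :=
  (Finsupp.lapply j : (ℕ →₀ ℝ) →ₗ[ℝ] ℝ).extendOfNorm ι

variable {ι N}
variable (hd : DenseRange ι) (hn : ∀ x, ‖ι x‖ = schNorm N x)

include hd hn

theorem coord_ι (j : ℕ) (x : ℕ →₀ ℝ) : coord ι j (ι x) = x j := by
  refine LinearMap.extendOfNorm_eq hd ⟨1, fun x => ?_⟩ x
  rw [one_mul, hn, Finsupp.lapply_apply, Real.norm_eq_abs]
  have := le_schNorm x (singleton_mem N j)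
  simpa using this

theorem sum_coord_le (z : X) {F : Finset ℕ} (hF : F ∈ Sch N) :
    ∑ j ∈ F, |coord ι j z| ≤ ‖z‖ := by
  refine hd.induction_on (p := fun z => ∑ j ∈ F, |coord ι j z| ≤ ‖z‖) z
    (isClosed_le (by fun_prop) (by fun_prop)) fun x => ?_
  rw [hn]
  calc ∑ j ∈ F, |coord ι j (ι x)| = ∑ j ∈ F, |x j| :=
        Finset.sum_congr rfl fun j _ => by rw [coord_ι hd hn]
    _ ≤ schNorm N x := le_schNorm x hF

theorem approx (z : X) {η : ℝ} (hη : 0 < η) : ∃ x : ℕ →₀ ℝ, ‖z - ι x‖ < η := by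
  obtain ⟨x, hx⟩ := hd.exists_dist_lt z hη
  exact ⟨x, by rwa [← dist_eq_norm]⟩

theorem sum_near (z : X) (x : ℕ →₀ ℝ) {F : Finset ℕ} (hF : F ∈ Sch N) {η : ℝ}
    (h : ‖z - ι x‖ < η) : ∑ j ∈ F, |x j - coord ι j z| ≤ η := by
  have h1 := sum_coord_le hd hn (z - ι x) hF
  have h2 : ∑ j ∈ F, |coord ι j (z - ι x)| = ∑ j ∈ F, |x j - coord ι j z| :=
    Finset.sum_congr rfl fun j _ => by rw [map_sub, coord_ι hd hn, abs_sub_comm]
  linarith

theorem norm_le_of_coord (z : X) {B : ℝ} (h : ∀ F ∈ Sch N, ∑ j ∈ F, |coord ι j z| ≤ B) :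
    ‖z‖ ≤ B := by
  refine le_of_forall_pos_le_add fun η hη => ?_
  obtain ⟨x, hx⟩ := approx hd hn z (half_pos hη)
  have h1 : ‖ι x‖ ≤ B + η / 2 := by
    rw [hn]
    refine schNorm_le x fun F hF => ?_
    have h2 := sum_near hd hn z x hF hx
    have h3 := h F hF
    have h4 : ∑ j ∈ F, |x j| ≤ ∑ j ∈ F, (|coord ι j z| + |x j - coord ι j z|) := by
      refine Finset.sum_le_sum fun j _ => ?_
      have := abs_add_le (coord ι j z) (x j - coord ι j z)
      rwa [add_sub_cancel] at this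
    rw [Finset.sum_add_distrib] at h4
    linarith
  have h5 : ‖z‖ ≤ ‖z - ι x‖ + ‖ι x‖ := by
    have := norm_add_le (z - ι x) (ι x)
    rwa [sub_add_cancel] at this
  linarith

theorem tails (z : X) {η : ℝ} (hη : 0 < η) : ∃ M : ℕ, ∀ F ∈ Sch N, (∀ a ∈ F, M ≤ a) →
    ∑ j ∈ F, |coord ι j z| ≤ η := by
  obtain ⟨x, hx⟩ := approx hd hn z hη
  refine ⟨x.support.sup id + 1, fun F hF hM => ?_⟩
  have h2 := sum_near hd hn z x hF hx
  refine le_trans (le_of_eq (Finset.sum_congr rfl fun j hj => ?_)) h2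
  have h0 : x j = 0 := by
    by_contra hne
    have h1 := Finset.le_sup (f := id) (Finsupp.mem_support_iff.2 hne)
    have h2 := hM j hj
    simp only [id] at h1
    omega
  rw [h0, zero_sub, abs_neg]

end

end Pool.Agent.X184.SS
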